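import Mathlib
set_option autoImplicit false

/-!
# Pig.  Popular geometric progressions of differences

If `|A1|^(t+1) > |A - A - A|^t` then there is `v ≠ 0` with `2^i v ∈ A1 - A1` for `0 ≤ i ≤ t` (pigeonhole for
`(x_0, ..., x_t) ↦ (x_1 - 2 x_0, ..., x_t - 2 x_(t-1))`).
-/
namespace Pool.Agent.NCL
open Finset
open scoped Pointwise

variable {G : Type} [AddCommGroup G] [DecidableEq G]

theorem pig (A A1 : Finset G) (hA : A1 ⊆ A) (t : ℕ) (h : (A - A - A).card ^ t < A1.card ^ (t + 1)) :
    ∃ v : G, v ≠ 0 ∧ ∀ i : ℕ, i ≤ t → ∃ a ∈ A1, ∃ b ∈ A1, (2 ^ i) • v = a - b := by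
  classical
  set S := Fintype.piFinset (fun _ : Fin (t + 1) => A1) with hS
  set T := Fintype.piFinset (fun _ : Fin t => A - A - A) with hT
  have hSc : S.card = A1.card ^ (t + 1) := by
    rw [hS, Fintype.card_piFinset, Finset.prod_const, Finset.card_univ, Fintype.card_fin]
  have hTc : T.card = (A - A - A).card ^ t := by
    rw [hT, Fintype.card_piFinset, Finset.prod_const, Finset.card_univ, Fintype.card_fin]
  have hmap : ∀ x ∈ S, (fun i : Fin t => x i.succ - x i.castSucc - x i.castSucc) ∈ T := by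
    intro x hx
    rw [hS, Fintype.mem_piFinset] at hx
    rw [hT, Fintype.mem_piFinset]
    intro i
    exact Finset.sub_mem_sub (Finset.sub_mem_sub (hA (hx _)) (hA (hx _))) (hA (hx _))
  obtain ⟨x, hx, y, hy, hne, heq⟩ := Finset.exists_ne_map_eq_of_card_lt_of_maps_to
    (f := fun (x : Fin (t + 1) → G) (i : Fin t) => x i.succ - x i.castSucc - x i.castSucc)
    (by rw [hSc, hTc]; exact h) hmap
  rw [hS, Fintype.mem_piFinset] at hx hy
  have hrec : ∀ i : Fin t, x i.succ - y i.succ = (x i.castSucc - y i.castSucc) + (x i.castSucc - y i.castSucc) := by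
    intro i
    have h1 : x i.succ - x i.castSucc - x i.castSucc = y i.succ - y i.castSucc - y i.castSucc := congrFun heq i
    have h2 : x i.succ = y i.succ - y i.castSucc - y i.castSucc + x i.castSucc + x i.castSucc := by
      rw [← h1]; abel
    rw [h2]; abel
  have hz : ∀ i : Fin (t + 1), x i - y i = (2 ^ (i : ℕ)) • (x 0 - y 0) := by
    intro i
    induction i using Fin.induction with
    | zero => simp
    | succ i ih =>
      rw [hrec i, ih, ← add_smul]
      congr 1
      simp only [Fin.val_castSucc, Fin.val_succ, pow_succ]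
      ring
  refine ⟨x 0 - y 0, ?_, ?_⟩
  · intro h0
    apply hne
    funext i
    have := hz i
    rw [h0, smul_zero] at this
    exact sub_eq_zero.mp this
  · intro i hi
    exact ⟨x ⟨i, by omega⟩, hx _, y ⟨i, by omega⟩, hy _, (hz ⟨i, by omega⟩).symm⟩

theorem triple (A : Finset G) (hA : A.Nonempty) (K : ℝ) (hK : ((A + A).card : ℝ) ≤ K * (A.card : ℝ)) :
    ((A - A - A).card : ℝ) ≤ K ^ 3 * (A.card : ℝ) := by
  have h0 : (0 : ℝ) < (A.card : ℝ) := by exact_mod_cast hA.card_pos
  have h1 := Finset.pluennecke_ruzsa_inequality_nsmul_sub_nsmul_add hA A 1 2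
  have h2 : (1 : ℕ) • A - (2 : ℕ) • A = A - A - A := by
    rw [one_nsmul, two_nsmul, sub_add_eq_sub_sub]
  rw [h2] at h1
  have h3 : ((A - A - A).card : ℝ) ≤ (((A + A).card : ℝ) / (A.card : ℝ)) ^ (1 + 2) * (A.card : ℝ) := by
    have := (NNRat.cast_le (K := ℝ)).2 h1
    push_cast at this
    exact this
  refine h3.trans ?_
  have h4 : ((A + A).card : ℝ) / (A.card : ℝ) ≤ K := by rw [div_le_iff₀ h0]; exact hK
  have h5 : (0 : ℝ) ≤ ((A + A).card : ℝ) / (A.card : ℝ) := by positivity
  have h6 := pow_le_pow_left₀ h5 h4 3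
  exact mul_le_mul_of_nonneg_right h6 h0.le

end Pool.Agent.NCL
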