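import Pool.Agent.NCL.Fib
import Pool.Agent.NCL.Pig
import Pool.Agent.NPM.Sel
import Pool.Agent.NPM.Nmn
import Pool.Agent.NPM.SmA
import Pool.Agent.NPM.Seq
set_option autoImplicit false

/-!
# Cor.  The core estimate in a finite group
-/
namespace Pool.Agent.NCL
open Finset Pool.Agent.Ldc Pool.Agent.NPM
open scoped Pointwise

variable {G : Type} [AddCommGroup G] [Fintype G] {β : Type} [Fintype β]

theorem l1_tri (x a b : G) (μ : G → ℝ) : l1 b a μ ≤ l1 x b μ + l1 x a μ := by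
  unfold l1
  rw [← Finset.sum_add_distrib]
  apply Finset.sum_le_sum
  intro g _
  have := abs_sub_le (μ (g - b)) (μ (g - x)) (μ (g - a))
  rw [abs_sub_comm (μ (g - b)) (μ (g - x))] at this
  exact this

theorem Av_l1 {u : β → ℝ} {P : β → G → ℝ} (hu : IsP u) (hP : ∀ y, IsP (P y)) (M : ℕ) (x a b : G)
    (ha : G2 u P M x a ≤ 1 / 20) (hb : G2 u P M x b ≤ 1 / 20) :
    Av u P M (l1 b a) ≤ 9 / 20 := by
  have h1 : Av u P M (l1 b a) ≤ Av u P M (fun μ => (2 * (l1 x b μ) ^ 2 + 2 * (l1 x a μ) ^ 2) + 1 / 4) := by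
    apply Av_mono hu hP
    intro μ _
    have h2 := l1_tri x a b μ
    nlinarith [sq_nonneg (l1 x b μ - 1 / 4), sq_nonneg (l1 x a μ - 1 / 4)]
  have h2 : Av u P M (fun μ => (2 * (l1 x b μ) ^ 2 + 2 * (l1 x a μ) ^ 2) + 1 / 4) =
      2 * G2 u P M x b + 2 * G2 u P M x a + 1 / 4 := by
    rw [Av_add hu hP M (fun μ => 2 * (l1 x b μ) ^ 2 + 2 * (l1 x a μ) ^ 2) (fun _ => 1 / 4),
      Av_add hu hP M (fun μ => 2 * (l1 x b μ) ^ 2) (fun μ => 2 * (l1 x a μ) ^ 2),
      Av_mul hu hP M 2 (fun μ => (l1 x b μ) ^ 2), Av_mul hu hP M 2 (fun μ => (l1 x a μ) ^ 2),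
      Av_const hu hP]
    rfl
  rw [h2] at h1
  linarith

/-- the flat part has mass at least `19/20` -/
theorem flat {A : Finset G} {u : β → ℝ} {P : β → G → ℝ} (hD : Dec A u P) (hA : A.Nonempty) (lam : ℝ)
    (hlam : 20 * (Real.log (A.card : ℝ) - hh u P 1 + 1) ≤ lam) :
    95 / 100 ≤ ∑ y, u y * ∑ x, fl (A.card : ℝ) lam (P y) x := by
  have hI : 0 ≤ Real.log (A.card : ℝ) - hh u P 1 := by linarith [hh_one_le hD hA]
  have hl : 0 < lam := by linarith
  have ha : (0 : ℝ) < (A.card : ℝ) := by exact_mod_cast hA.card_pos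
  have h1 := VV_avg hD hA
  have h2 : ∀ y, lam * (1 - ∑ x, fl (A.card : ℝ) lam (P y) x) ≤ VV (A.card : ℝ) (P y) := by
    intro y
    have := mass_nonflat (hD.hP y) (A.card : ℝ) lam ha hl.le
    rw [Finset.sum_sub_distrib, (hD.hP y).2] at this
    exact this
  have h3 : ∑ y, u y * (lam * (1 - ∑ x, fl (A.card : ℝ) lam (P y) x)) ≤ ∑ y, u y * VV (A.card : ℝ) (P y) :=
    Finset.sum_le_sum fun y _ => mul_le_mul_of_nonneg_left (h2 y) (hD.hu.1 y)
  have h4 : ∑ y, u y * (lam * (1 - ∑ x, fl (A.card : ℝ) lam (P y) x)) =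
      lam * (1 - ∑ y, u y * ∑ x, fl (A.card : ℝ) lam (P y) x) := by
    have : ∀ y, u y * (lam * (1 - ∑ x, fl (A.card : ℝ) lam (P y) x)) =
        lam * u y - lam * (u y * ∑ x, fl (A.card : ℝ) lam (P y) x) := by intro y; ring
    rw [Finset.sum_congr rfl (fun y _ => this y), Finset.sum_sub_distrib, ← Finset.mul_sum, ← Finset.mul_sum,
      hD.hu.2]
    ring
  rw [h4] at h3
  have h5 : lam * (1 - ∑ y, u y * ∑ x, fl (A.card : ℝ) lam (P y) x) ≤ lam * (1 / 20) := by linarith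
  have := le_of_mul_le_mul_left h5 hl
  linarith

theorem core [DecidableEq G] {A : Finset G} {u : β → ℝ} {P : β → G → ℝ} (hD : Dec A u P) (hA : A.Nonempty) (M : ℕ)
    (hM : 1 ≤ M) (lam : ℝ) (hlam : 20 * (Real.log (A.card : ℝ) - hh u P 1 + 1) ≤ lam)
    (h1 : 16 * (hh u P (M + 1) - hh u P M) ≤ 1 / 400) (g0 : ℝ) (hg : hh u P M ≤ hh u P 1 + g0)
    (s r : ℕ) (hs : 1 ≤ s)
    (hr : ∀ v : G, v ≠ 0 → (∃ a ∈ A, ∃ b ∈ A, v = a - b) → ∀ z : G, ∀ T : Finset ℕ, T ⊆ range (2 ^ s) →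
      (∀ j ∈ T, z - j • v ∈ A) → T.card ≤ r)
    (K : ℝ) (hK1 : 1 ≤ K) (hK : ((A + A).card : ℝ) ≤ K * (A.card : ℝ))
    (hbig : g0 + Real.log r < 53 / 100 * s) :
    Real.log (A.card : ℝ) ≤ s * (lam + 1 + 3 * Real.log K) := by
  by_contra hcon
  push Not at hcon
  have hu := hD.hu
  have hP := hD.hP
  have ha : (0 : ℝ) < (A.card : ℝ) := by exact_mod_cast hA.card_pos
  have hlK : 0 ≤ Real.log K := Real.log_nonneg hK1
  -- selection
  have hsel1 : ∑ y, u y * ∑ x, P y x * ∑ x', P y x' * G2 u P M x x' ≤ 1 / 400 :=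
    (smo_avg hu hP M).trans h1
  have hfl0 : ∀ y x, 0 ≤ fl (A.card : ℝ) lam (P y) x := by
    intro y x
    unfold fl
    split_ifs
    · exact (hP y).1 x
    · exact le_rfl
  have hcm : ∀ y x, (0 : ℝ) ≤ cm (⊥ : AddSubgroup G) (fl (A.card : ℝ) lam (P y)) x := by
    intro y x
    unfold cm
    exact Finset.sum_nonneg fun w _ => hfl0 y _
  obtain ⟨x₀, A1, hA1, hA1c, hG, -⟩ := select hD hA M ⊥ lam 0 hsel1 (by
    refine (flat hD hA lam hlam).trans (le_of_eq ?_)
    apply Finset.sum_congr rfl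
    intro y _
    rw [Finset.filter_true_of_mem (fun x _ => hcm y x)])
  -- pigeonhole
  obtain ⟨t, rfl⟩ : ∃ t, s = t + 1 := ⟨s - 1, by omega⟩
  have hcard : (A - A - A).card ^ t < A1.card ^ (t + 1) := by
    have h2 := triple A hA K hK
    have h3 : ((A - A - A).card : ℝ) ^ t ≤ (K ^ 3 * (A.card : ℝ)) ^ t :=
      pow_le_pow_left₀ (by positivity) h2 t
    have h4 : (9 / 10 * Real.exp (-lam) * (A.card : ℝ)) ^ (t + 1) ≤ (A1.card : ℝ) ^ (t + 1) :=
      pow_le_pow_left₀ (by positivity) hA1c (t + 1)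
    have hK0 : 0 < K := by linarith
    have h5 : (K ^ 3 * (A.card : ℝ)) ^ t < (9 / 10 * Real.exp (-lam) * (A.card : ℝ)) ^ (t + 1) := by
      rw [← Real.log_lt_log_iff (by positivity) (by positivity), Real.log_pow, Real.log_pow,
        Real.log_mul (by positivity) ha.ne', Real.log_pow, Real.log_mul (by positivity) ha.ne',
        Real.log_mul (by norm_num) (Real.exp_pos _).ne', Real.log_exp]
      have h6 : -(1 / 9 : ℝ) ≤ Real.log (9 / 10) := by
        have := Real.one_sub_inv_le_log_of_pos (show (0 : ℝ) < 9 / 10 by norm_num)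
        norm_num at this ⊢
        linarith
      push_cast at hcon ⊢
      have ht : (0 : ℝ) ≤ t := by positivity
      nlinarith [mul_nonneg ht hlK]
    have h6 : (((A - A - A).card ^ t : ℕ) : ℝ) < ((A1.card ^ (t + 1) : ℕ) : ℝ) := by
      push_cast
      linarith
    exact_mod_cast h6
  obtain ⟨v, hv0, hv⟩ := pig A A1 hA1 t hcard
  -- lower bound
  have hlow : hh u P 1 + (t + 1 : ℕ) * Real.log 2 - Real.log r ≤ ∑ y, u y * ent (conv (US v (t + 1)) (P y)) := by
    have h2 : hh u P 1 + (t + 1 : ℕ) * Real.log 2 - Real.log r =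
        ∑ y, u y * (ent (P y) + (t + 1 : ℕ) * Real.log 2 - Real.log r) := by
      unfold hh
      rw [Av_one]
      have : ∀ y, u y * (ent (P y) + (t + 1 : ℕ) * Real.log 2 - Real.log r) =
          u y * ent (P y) + u y * ((t + 1 : ℕ) * Real.log 2 - Real.log r) := by intro y; ring
      rw [Finset.sum_congr rfl (fun y _ => this y), Finset.sum_add_distrib, ← Finset.sum_mul, hu.2]
      ring
    rw [h2]
    apply Finset.sum_le_sum
    intro y _
    rcases (hu.1 y).lt_or_eq with h | h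
    · apply mul_le_mul_of_nonneg_left _ (hu.1 y)
      obtain ⟨a, haA, b, hbA, hab⟩ := hv 0 (Nat.zero_le _)
      rw [pow_zero, one_smul] at hab
      exact fib (hP y) (A : Set G) (fun x hx => hD.supp h (by simpa using hx)) v (t + 1) r
        (fun z T hT hTA => hr v hv0 ⟨a, hA1 haA, b, hA1 hbA, hab⟩ z T hT (fun j hj => by simpa using hTA j hj))
    · rw [← h]; simp
  have hmid : ∑ y, u y * ent (conv (US v (t + 1)) (P y)) ≤ Av u P M (fun μ => ent (conv (US v (t + 1)) μ)) := by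
    obtain ⟨m, rfl⟩ : ∃ m, M = m + 1 := ⟨M - 1, by omega⟩
    rw [Av_succ]
    apply Finset.sum_le_sum
    intro y _
    apply mul_le_mul_of_nonneg_left _ (hu.1 y)
    rw [← Av_const hu hP m (ent (conv (US v (t + 1)) (P y)))]
    apply Av_mono hu hP
    intro μ hμ
    rw [← conv_assoc, conv_comm (conv (US v (t + 1)) (P y)) μ]
    exact ent_conv_ge hμ (conv_isP (US_isP _ _) (hP y))
  have hup : Av u P M (fun μ => ent (conv (US v (t + 1)) μ)) ≤
      hh u P M + (t + 1 : ℕ) * (Real.log 2 / 2 * (9 / 20)) := by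
    have h2 : Av u P M (fun μ => ent (conv (US v (t + 1)) μ)) ≤
        Av u P M (fun μ => ent μ + ∑ i ∈ range (t + 1), Real.log 2 / 2 * l1 0 ((2 ^ i) • v) μ) := by
      apply Av_mono hu hP
      intro μ hμ
      linarith [chain v μ hμ (t + 1)]
    refine h2.trans ?_
    rw [Av_add hu hP M ent (fun μ => ∑ i ∈ range (t + 1), Real.log 2 / 2 * l1 0 ((2 ^ i) • v) μ),
      Av_sum hu hP M (range (t + 1)) (fun i μ => Real.log 2 / 2 * l1 0 ((2 ^ i) • v) μ)]
    have h3 : ∀ i ∈ range (t + 1), Av u P M (fun μ => Real.log 2 / 2 * l1 0 ((2 ^ i) • v) μ) ≤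
        Real.log 2 / 2 * (9 / 20) := by
      intro i hi
      rw [Av_mul hu hP M (Real.log 2 / 2) (fun μ => l1 0 ((2 ^ i) • v) μ)]
      have hlog2 : 0 ≤ Real.log 2 / 2 := by
        have := Real.log_nonneg (show (1 : ℝ) ≤ 2 by norm_num); linarith
      apply mul_le_mul_of_nonneg_left _ hlog2
      obtain ⟨a, haA, b, hbA, hab⟩ := hv i (by have := Finset.mem_range.1 hi; omega)
      have h4 : (fun μ => l1 0 ((2 ^ i) • v) μ) = l1 b a := by
        funext μ
        rw [hab, l1_sub]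
      rw [h4]
      exact Av_l1 hu hP M x₀ a b (hG a haA) (hG b hbA)
    have h4 := Finset.sum_le_card_nsmul (range (t + 1)) _ _ h3
    rw [Finset.card_range, nsmul_eq_mul] at h4
    unfold hh
    linarith
  have hl2 : (0.6931 : ℝ) < Real.log 2 := by linarith [Real.log_two_gt_d9]
  have ht : (0 : ℝ) < ((t + 1 : ℕ) : ℝ) := by positivity
  have h9 : (31 / 40 : ℝ) * Real.log 2 * ((t + 1 : ℕ) : ℝ) ≤ g0 + Real.log r := by
    have := hlow.trans (hmid.trans hup)
    linarith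
  have h10 : (53 / 100 : ℝ) * ((t + 1 : ℕ) : ℝ) ≤ (31 / 40 : ℝ) * Real.log 2 * ((t + 1 : ℕ) : ℝ) := by
    apply mul_le_mul_of_nonneg_right _ ht.le
    linarith
  linarith

end Pool.Agent.NCL
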