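import Pool.Agent.NCL.Shf
set_option autoImplicit false

/-!
# Fib.  Few points on each progression force entropy growth

If `p` is supported on `A` and every progression `{z - j v : 0 ≤ j < 2^s}` meets `A` in at most `r` points then
`H(p * US v s) ≥ H(p) + s log 2 - log r`.
-/
namespace Pool.Agent.NCL
open Finset Pool.Agent.Ldc Pool.Agent.NPM

variable {G : Type} [AddCommGroup G] [Fintype G]

theorem jens {ι : Type} (T : Finset ι) (t : ι → ℝ) (ht : ∀ i ∈ T, 0 ≤ t i) (r : ℕ) (hr : T.card ≤ r) :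
    ∑ i ∈ T, Real.negMulLog (t i) ≤ Real.negMulLog (∑ i ∈ T, t i) + (∑ i ∈ T, t i) * Real.log r := by
  rcases T.eq_empty_or_nonempty with h | h
  · subst h; simp
  · have hm : 0 < T.card := h.card_pos
    have hm' : (0 : ℝ) < (T.card : ℝ) := by exact_mod_cast hm
    have hS : 0 ≤ ∑ i ∈ T, t i := Finset.sum_nonneg ht
    have h1 := Real.concaveOn_negMulLog.le_map_sum (t := T) (w := fun _ => (1 : ℝ) / (T.card : ℝ)) (p := t)
      (fun i _ => by positivity) (by rw [Finset.sum_const, nsmul_eq_mul]; field_simp)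
      (fun i hi => Set.mem_Ici.mpr (ht i hi))
    simp only [smul_eq_mul, ← Finset.mul_sum] at h1
    have h2 : Real.negMulLog (1 / (T.card : ℝ) * ∑ i ∈ T, t i) =
        1 / (T.card : ℝ) * (Real.negMulLog (∑ i ∈ T, t i) + (∑ i ∈ T, t i) * Real.log (T.card : ℝ)) := by
      rw [Real.negMulLog_mul]
      have : Real.negMulLog (1 / (T.card : ℝ)) = 1 / (T.card : ℝ) * Real.log (T.card : ℝ) := by
        unfold Real.negMulLog
        rw [one_div, Real.log_inv]; ring
      rw [this]; ring
    rw [h2] at h1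
    have h3 : ∑ i ∈ T, Real.negMulLog (t i) ≤
        Real.negMulLog (∑ i ∈ T, t i) + (∑ i ∈ T, t i) * Real.log (T.card : ℝ) := by
      have := mul_le_mul_of_nonneg_left h1 hm'.le
      rw [← mul_assoc, ← mul_assoc, mul_one_div_cancel hm'.ne', one_mul, one_mul] at this
      exact this
    have h4 : Real.log (T.card : ℝ) ≤ Real.log r := Real.log_le_log hm' (by exact_mod_cast hr)
    have h5 := mul_le_mul_of_nonneg_left h4 hS
    linarith

theorem fib {p : G → ℝ} (hp : IsP p) (A : Set G) (hA : ∀ x, x ∉ A → p x = 0) (v : G) (s r : ℕ)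
    (hr : ∀ z, ∀ T : Finset ℕ, T ⊆ range (2 ^ s) → (∀ j ∈ T, z - j • v ∈ A) → T.card ≤ r) :
    ent p + s * Real.log 2 - Real.log r ≤ ent (conv (US v s) p) := by
  classical
  have h0 : (0 : ℝ) < 2 ^ s := by positivity
  -- double sum
  have h1 : ∑ z, ∑ j ∈ range (2 ^ s), Real.negMulLog ((1 / 2 ^ s : ℝ) * p (z - j • v)) = ent p + s * Real.log 2 := by
    rw [Finset.sum_comm]
    have h2 : ∀ j ∈ range (2 ^ s), ∑ z, Real.negMulLog ((1 / 2 ^ s : ℝ) * p (z - j • v)) =
        (1 / 2 ^ s : ℝ) * (ent p + s * Real.log 2) := by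
      intro j _
      have hc := Equiv.sum_comp (Equiv.subRight (j • v)) (fun z => Real.negMulLog ((1 / 2 ^ s : ℝ) * p z))
      simp only [Equiv.subRight_apply] at hc
      rw [hc]
      have h3 : Real.negMulLog (1 / 2 ^ s : ℝ) = (1 / 2 ^ s : ℝ) * (s * Real.log 2) := by
        unfold Real.negMulLog
        rw [one_div, Real.log_inv, Real.log_pow]; ring
      have h4 : ∀ z, Real.negMulLog ((1 / 2 ^ s : ℝ) * p z) =
          (1 / 2 ^ s : ℝ) * Real.negMulLog (p z) + p z * ((1 / 2 ^ s : ℝ) * (s * Real.log 2)) := by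
        intro z
        rw [Real.negMulLog_mul, h3]; ring
      rw [Finset.sum_congr rfl (fun z _ => h4 z), Finset.sum_add_distrib, ← Finset.mul_sum, ← Finset.sum_mul, hp.2]
      unfold ent; ring
    rw [Finset.sum_congr rfl h2, Finset.sum_const, Finset.card_range, nsmul_eq_mul]
    push_cast
    field_simp
  have h2 : ∀ z, ∑ j ∈ range (2 ^ s), Real.negMulLog ((1 / 2 ^ s : ℝ) * p (z - j • v)) ≤
      Real.negMulLog (conv (US v s) p z) + conv (US v s) p z * Real.log r := by
    intro z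
    rw [conv_US]
    set T := (range (2 ^ s)).filter (fun j => z - j • v ∈ A) with hT
    have h3 : ∀ f : ℝ → ℝ, f 0 = 0 → ∑ j ∈ range (2 ^ s), f ((1 / 2 ^ s : ℝ) * p (z - j • v)) =
        ∑ j ∈ T, f ((1 / 2 ^ s : ℝ) * p (z - j • v)) := by
      intro f hf
      symm
      apply Finset.sum_subset (Finset.filter_subset _ _)
      intro j hj hjT
      have : z - j • v ∉ A := fun h => hjT (Finset.mem_filter.2 ⟨hj, h⟩)
      rw [hA _ this, mul_zero, hf]
    rw [h3 Real.negMulLog Real.negMulLog_zero, h3 (fun x => x) rfl]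
    apply jens T _ (fun j _ => mul_nonneg (by positivity) (hp.1 _)) r
    exact hr z T (Finset.filter_subset _ _) (fun j hj => (Finset.mem_filter.1 hj).2)
  have h3 := Finset.sum_le_sum (fun z (_ : z ∈ (Finset.univ : Finset G)) => h2 z)
  rw [h1, Finset.sum_add_distrib, ← Finset.sum_mul, (conv_isP (US_isP v s) hp).2, one_mul] at h3
  unfold ent at h3 ⊢
  linarith

end Pool.Agent.NCL
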