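import Pool.Agent.NCL.Tor
set_option autoImplicit false

/-!
# Gap.  Sets with few points on each line: the final inequalities
-/
namespace Pool.Agent.NCL
open Finset
open scoped Pointwise

theorem gen : ∃ C : ℝ, 1 ≤ C ∧ ∀ (V : Type) [AddCommGroup V] [DecidableEq V] (A : Finset V) (r : ℕ),
    (∀ (n : ℤ) (v : V), n • v = 0 → n = 0 ∨ v = 0) → A.Nonempty →
    (∀ z v : V, v ≠ 0 → ∀ T : Finset V, T ⊆ A → (∀ a ∈ T, ∃ j : ℤ, a = z + j • v) → T.card ≤ r) →
    1 ≤ ((A + A).card : ℝ) / (A.card : ℝ) ∧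
    Real.log (A.card : ℝ) ≤ C * (DD (((A + A).card : ℝ) / (A.card : ℝ)) + Real.log r) *
      DD (((A + A).card : ℝ) / (A.card : ℝ)) := by
  obtain ⟨C, hC, h⟩ := tor
  refine ⟨2 * C ^ 2, by nlinarith, ?_⟩
  intro V _ _ A r htf hA hr
  have ha : (0 : ℝ) < (A.card : ℝ) := by exact_mod_cast hA.card_pos
  obtain ⟨K, hK⟩ : ∃ K : ℝ, K = ((A + A).card : ℝ) / (A.card : ℝ) := ⟨_, rfl⟩
  rw [← hK]
  have hK1 : 1 ≤ K := by
    rw [hK, one_le_div ha]
    exact_mod_cast Finset.card_le_card_add_right hA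
  refine ⟨hK1, ?_⟩
  have hD := one_le_DD hK1
  have hlr : 0 ≤ Real.log r := Real.log_natCast_nonneg r
  obtain ⟨s, hs⟩ : ∃ s : ℕ, s = ⌈C * (DD K + Real.log r)⌉₊ := ⟨_, rfl⟩
  have hs1 : C * (DD K + Real.log r) ≤ s := by rw [hs]; exact Nat.le_ceil _
  have h1 : 1 ≤ C * (DD K + Real.log r) := one_le_mul_of_one_le_of_one_le hC (by linarith)
  have hs2 : (s : ℝ) ≤ 2 * (C * (DD K + Real.log r)) := by
    have := Nat.ceil_lt_add_one (show 0 ≤ C * (DD K + Real.log r) by linarith)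
    rw [← hs] at this
    linarith
  have h2 := h V A r s K htf hA hK1 (by rw [hK, div_mul_cancel₀ _ ha.ne']) hs1
    (fun z v hv T hT hTz => hr z v hv T hT (fun a haT => by
      obtain ⟨j, -, hj⟩ := hTz a haT
      exact ⟨(j : ℤ), by rw [natCast_zsmul]; exact hj⟩))
  refine h2.trans ?_
  have h3 : C * (s : ℝ) * DD K ≤ C * (2 * (C * (DD K + Real.log r))) * DD K := by
    apply mul_le_mul_of_nonneg_right _ (by linarith)
    exact mul_le_mul_of_nonneg_left hs2 (by linarith)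
  refine h3.trans (le_of_eq ?_)
  ring

theorem genK : ∃ C : ℝ, 1 ≤ C ∧ ∀ (V : Type) [AddCommGroup V] [DecidableEq V] (A : Finset V) (r : ℕ) (K : ℝ),
    (∀ (n : ℤ) (v : V), n • v = 0 → n = 0 ∨ v = 0) → A.Nonempty →
    ((A + A).card : ℝ) ≤ K * (A.card : ℝ) →
    (∀ z v : V, v ≠ 0 → ∀ T : Finset V, T ⊆ A → (∀ a ∈ T, ∃ j : ℤ, a = z + j • v) → T.card ≤ r) →
    Real.log (A.card : ℝ) ≤ C * (DD K + Real.log r) * DD K := by
  obtain ⟨C, hC, h⟩ := gen
  refine ⟨C, hC, ?_⟩
  intro V _ _ A r K htf hA hK hr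
  obtain ⟨h1, h2⟩ := h V A r htf hA hr
  have ha : (0 : ℝ) < (A.card : ℝ) := by exact_mod_cast hA.card_pos
  have h3 : ((A + A).card : ℝ) / (A.card : ℝ) ≤ K := by rw [div_le_iff₀ ha]; exact hK
  have hlr : 0 ≤ Real.log r := Real.log_natCast_nonneg r
  have hD : DD (((A + A).card : ℝ) / (A.card : ℝ)) ≤ DD K := by
    unfold DD
    have h4 := Real.log_le_log (by linarith) h3
    have h5 := one_le_k h1
    have h6 := Real.log_le_log (by linarith : 0 < 1 + Real.log (((A + A).card : ℝ) / (A.card : ℝ)))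
      (by linarith : 1 + Real.log (((A + A).card : ℝ) / (A.card : ℝ)) ≤ 1 + Real.log K)
    have h7 := one_le_L h1
    exact mul_le_mul (by linarith) (by linarith) (by linarith) (by linarith)
  have hD1 := one_le_DD h1
  refine h2.trans ?_
  apply mul_le_mul _ hD (by linarith)
  · have : 0 ≤ DD K + Real.log r := by linarith
    exact mul_nonneg (by linarith) this
  · exact mul_le_mul_of_nonneg_left (by linarith) (by linarith)

theorem log_le_two_sqrt {x : ℝ} (hx : 0 < x) : Real.log x ≤ 2 * Real.sqrt x := by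
  have h1 := Real.log_le_sub_one_of_pos (Real.sqrt_pos.2 hx)
  rw [Real.log_sqrt hx.le] at h1
  linarith

theorem ana (C : ℝ) (hC : 1 ≤ C) (r : ℕ) : ∃ c : ℝ, 0 < c ∧ ∃ n₀ : ℕ, 5 ≤ n₀ ∧ ∀ n : ℕ, n₀ ≤ n → ∀ K : ℝ, 1 ≤ K →
    Real.log n ≤ C * (DD K + Real.log r) * DD K →
    Real.exp (c * Real.sqrt (Real.log n) / Real.log (Real.log n)) ≤ K := by
  have hlr : 0 ≤ Real.log r := Real.log_natCast_nonneg r
  obtain ⟨C', hC'⟩ : ∃ C' : ℝ, C' = C * (1 + Real.log r) := ⟨_, rfl⟩
  have hC'1 : 1 ≤ C' := by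
    rw [hC']; exact one_le_mul_of_one_le_of_one_le hC (by linarith)
  -- c1 = 1 / C'
  obtain ⟨c, hc⟩ : ∃ c : ℝ, c = 1 / (3 * C') := ⟨_, rfl⟩
  have hc0 : 0 < c := by rw [hc]; positivity
  have hcC : c * (3 * C') = 1 := by rw [hc]; field_simp
  have hc1 : c ≤ 1 := by
    rw [hc, div_le_one (by positivity)]; linarith
  obtain ⟨X, hX⟩ : ∃ X : ℝ, X = 16 / c ^ 2 + 3 := ⟨_, rfl⟩
  have hX3 : 3 ≤ X := by rw [hX]; have : 0 ≤ 16 / c ^ 2 := by positivity
                         linarith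
  obtain ⟨n₁, hn₁⟩ : ∃ n : ℕ, Real.exp (X ^ 2) ≤ n := exists_nat_ge _
  refine ⟨c, hc0, max n₁ 5, le_max_right _ _, ?_⟩
  intro n hn K hK hlog
  have hn0 : (n₁ : ℝ) ≤ n := by exact_mod_cast (le_max_left n₁ 5).trans hn
  have hnpos : (0 : ℝ) < n := lt_of_lt_of_le (Real.exp_pos _) (hn₁.trans hn0)
  have hlX : X ^ 2 ≤ Real.log n := by
    rw [Real.le_log_iff_exp_le hnpos]; exact hn₁.trans hn0
  obtain ⟨x, hx⟩ : ∃ x : ℝ, x = Real.sqrt (Real.log n) := ⟨_, rfl⟩
  have hx2 : x ^ 2 = Real.log n := by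
    rw [hx]; exact Real.sq_sqrt (le_trans (sq_nonneg _) hlX)
  have hx0 : 0 ≤ x := by rw [hx]; exact Real.sqrt_nonneg _
  have hXx : X ≤ x := by
    rw [← hx2] at hlX
    exact le_of_sq_le_sq hlX hx0
  have hx3 : 3 ≤ x := hX3.trans hXx
  have hllog : Real.log (Real.log n) = 2 * Real.log x := by
    rw [← hx2, Real.log_pow]; norm_num
  rw [← hx, hllog]
  have hlx1 : 1 ≤ Real.log x := by
    rw [Real.le_log_iff_exp_le (by linarith)]
    linarith [Real.exp_one_lt_d9]
  have hD := one_le_DD hK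
  have hk1 := one_le_k hK
  have hL1 := one_le_L hK
  -- D ≥ 3 c x
  have hDx : 3 * c * x ≤ DD K := by
    have h1 : x ^ 2 ≤ C' * DD K ^ 2 := by
      rw [hx2, hC']
      refine hlog.trans ?_
      have h2 : C * (DD K + Real.log r) * DD K ≤ C * (DD K + DD K * Real.log r) * DD K := by
        apply mul_le_mul_of_nonneg_right _ (by linarith)
        apply mul_le_mul_of_nonneg_left _ (by linarith)
        have := le_mul_of_one_le_left hlr hD
        linarith
      refine h2.trans (le_of_eq ?_)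
      ring
    have h2 : (3 * c * x) ^ 2 ≤ DD K ^ 2 := by
      have h3 : (3 * c * x) ^ 2 ≤ (3 * c) ^ 2 * (C' * DD K ^ 2) := by
        rw [mul_pow]
        exact mul_le_mul_of_nonneg_left h1 (by positivity)
      have h4 : (3 * c) ^ 2 * (C' * DD K ^ 2) = (3 * c) * DD K ^ 2 := by
        calc (3 * c) ^ 2 * (C' * DD K ^ 2) = (3 * c) * (c * (3 * C')) * DD K ^ 2 := by ring
          _ = _ := by rw [hcC, mul_one]
      have h5 : 3 * c ≤ 1 := by
        have : 3 * c = 1 / C' := by rw [hc]; field_simp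
        rw [this, div_le_one (by linarith)]
        exact hC'1
      rw [h4] at h3
      refine h3.trans ?_
      have : 0 ≤ DD K ^ 2 := sq_nonneg _
      nlinarith
    exact le_of_sq_le_sq h2 (by linarith)
  -- suppose log K is small
  rw [← Real.le_log_iff_exp_le (by linarith)]
  by_contra hcon
  push Not at hcon
  have hlx0 : 0 < Real.log x := by linarith
  have h1 : 1 ≤ c * x / (2 * Real.log x) := by
    rw [one_le_div (by positivity)]
    have h2 : 2 * Real.log x ≤ 4 * Real.sqrt x := by linarith [log_le_two_sqrt (show 0 < x by linarith)]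
    refine h2.trans ?_
    have h3 : (4 / c) ^ 2 ≤ x := by
      have : (4 / c) ^ 2 = 16 / c ^ 2 := by rw [div_pow]; norm_num
      rw [this]; linarith [hX ▸ hXx]
    have h4 : 4 / c ≤ Real.sqrt x := Real.le_sqrt_of_sq_le h3
    have h5 : 4 ≤ c * Real.sqrt x := by
      rw [div_le_iff₀ hc0] at h4; linarith
    have h6 : x = Real.sqrt x * Real.sqrt x := (Real.mul_self_sqrt (by linarith)).symm
    calc 4 * Real.sqrt x ≤ (c * Real.sqrt x) * Real.sqrt x :=
          mul_le_mul_of_nonneg_right h5 (Real.sqrt_nonneg _)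
      _ = c * (Real.sqrt x * Real.sqrt x) := by ring
      _ = c * x := by rw [← h6]
  have hk : 1 + Real.log K < c * x / Real.log x := by
    have h2 : c * x / Real.log x = c * x / (2 * Real.log x) + c * x / (2 * Real.log x) := by
      field_simp; ring
    rw [h2]; linarith
  have hkx : 1 + Real.log K ≤ x := by
    have h2 : c * x / Real.log x ≤ x := by
      rw [div_le_iff₀ hlx0]
      have h3 : c * x ≤ 1 * x := mul_le_mul_of_nonneg_right hc1 hx0
      nlinarith
    linarith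
  have hL : 1 + Real.log (1 + Real.log K) ≤ 2 * Real.log x := by
    have := Real.log_le_log (by linarith) hkx
    linarith
  have hDlt : DD K < 3 * c * x := by
    unfold DD
    calc (1 + Real.log K) * (1 + Real.log (1 + Real.log K)) ≤ (1 + Real.log K) * (2 * Real.log x) :=
          mul_le_mul_of_nonneg_left hL (by linarith)
      _ < (c * x / Real.log x) * (2 * Real.log x) := by
          apply mul_lt_mul_of_pos_right hk (by linarith)
      _ = 2 * c * x := by field_simp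
      _ < 3 * c * x := by
          have : 0 < c * x := by positivity
          linarith
  linarith

/-- sets in torsion-free groups with at most `r` points on each line -/
theorem few (r : ℕ) : ∃ c : ℝ, 0 < c ∧ ∃ n₀ : ℕ, 5 ≤ n₀ ∧ ∀ (V : Type) [AddCommGroup V] [DecidableEq V] (A : Finset V),
    (∀ (n : ℤ) (v : V), n • v = 0 → n = 0 ∨ v = 0) → n₀ ≤ A.card →
    (∀ z v : V, v ≠ 0 → ∀ T : Finset V, T ⊆ A → (∀ a ∈ T, ∃ j : ℤ, a = z + j • v) → T.card ≤ r) →
    (A.card : ℝ) * Real.exp (c * Real.sqrt (Real.log A.card) / Real.log (Real.log A.card)) ≤ ((A + A).card : ℝ) := by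
  obtain ⟨C, hC, h⟩ := gen
  obtain ⟨c, hc, n₀, hn₀, h2⟩ := ana C hC r
  refine ⟨c, hc, n₀, hn₀, ?_⟩
  intro V _ _ A htf hA hr
  have hA0 : 0 < A.card := by omega
  obtain ⟨h3, h4⟩ := h V A r htf (Finset.card_pos.1 hA0) hr
  have h5 := h2 A.card hA _ h3 h4
  have ha : (0 : ℝ) < (A.card : ℝ) := by exact_mod_cast hA0
  rw [le_div_iff₀ ha] at h5
  linarith

end Pool.Agent.NCL
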