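import Pool.Agent.NCL.Cor
set_option autoImplicit false

/-!
# Par.  Choice of the parameters
-/
namespace Pool.Agent.NCL
open Finset Pool.Agent.Ldc Pool.Agent.NPM
open scoped Pointwise

/-- `k (1 + log k)`, `k = 1 + log K` -/
noncomputable def DD (K : ℝ) : ℝ := (1 + Real.log K) * (1 + Real.log (1 + Real.log K))

theorem one_le_k {K : ℝ} (hK : 1 ≤ K) : 1 ≤ 1 + Real.log K := by
  have := Real.log_nonneg hK; linarith

theorem one_le_L {K : ℝ} (hK : 1 ≤ K) : 1 ≤ 1 + Real.log (1 + Real.log K) := by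
  have := Real.log_nonneg (one_le_k hK); linarith

theorem one_le_DD {K : ℝ} (hK : 1 ≤ K) : 1 ≤ DD K := by
  unfold DD
  exact one_le_mul_of_one_le_of_one_le (one_le_k hK) (one_le_L hK)

theorem exp10 : (12800 : ℝ) ≤ Real.exp 10 := by
  have h1 : (2.7 : ℝ) ≤ Real.exp 1 := by linarith [Real.exp_one_gt_d9]
  have h2 : Real.exp 10 = Real.exp 1 ^ 10 := by
    rw [← Real.exp_nat_mul]; norm_num
  rw [h2]
  have h3 : (2.7 : ℝ) ^ 10 ≤ Real.exp 1 ^ 10 := pow_le_pow_left₀ (by norm_num) h1 10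
  norm_num at h3 ⊢
  linarith

theorem fin_case : ∃ C : ℝ, 1 ≤ C ∧ ∀ (G : Type) [AddCommGroup G] [Fintype G] [DecidableEq G] (A : Finset G)
    (r s : ℕ) (K : ℝ), A.Nonempty → 1 ≤ K → ((A + A).card : ℝ) ≤ K * (A.card : ℝ) →
    C * (DD K + Real.log r) ≤ s →
    (∀ v : G, v ≠ 0 → (∃ a ∈ A, ∃ b ∈ A, v = a - b) → ∀ z : G, ∀ T : Finset ℕ, T ⊆ range (2 ^ s) →
      (∀ j ∈ T, z - j • v ∈ A) → T.card ≤ r) →
    Real.log (A.card : ℝ) ≤ C * s * DD K := by
  obtain ⟨E, hE⟩ : ∃ E : ℝ, E = Real.exp 21 := ⟨_, rfl⟩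
  have hE1 : 1 ≤ E := by rw [hE]; exact Real.one_le_exp (by norm_num)
  refine ⟨10 * E + 64, by linarith, ?_⟩
  intro G _ _ _ A r s K hA hK1 hK hs hr
  have hDD := one_le_DD hK1
  obtain ⟨k, hk⟩ : ∃ k : ℝ, k = 1 + Real.log K := ⟨_, rfl⟩
  obtain ⟨L, hL⟩ : ∃ L : ℝ, L = 1 + Real.log k := ⟨_, rfl⟩
  have hk1 : 1 ≤ k := by rw [hk]; exact one_le_k hK1
  have hL1 : 1 ≤ L := by rw [hL, hk]; exact one_le_L hK1
  have hD : DD K = k * L := by rw [hL, hk]; rfl
  have hlK : 0 ≤ Real.log K := Real.log_nonneg hK1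
  rw [hD] at hDD hs ⊢
  obtain ⟨η, hη⟩ : ∃ η : ℝ, η = 1 / (2 * L) := ⟨_, rfl⟩
  have hη0 : 0 < η := by rw [hη]; positivity
  have hη2 : η ≤ 1 / 2 := by
    rw [hη]
    apply one_div_le_one_div_of_le (by norm_num)
    linarith
  have hηL : η * (2 * L) = 1 := by rw [hη]; field_simp
  obtain ⟨s1, hs1⟩ : ∃ s1 : ℕ, s1 = ⌈40 * L⌉₊ := ⟨_, rfl⟩
  have hs1a : 40 * L ≤ s1 := by rw [hs1]; exact Nat.le_ceil _
  have hs1b : (s1 : ℝ) ≤ 41 * L := by
    have := Nat.ceil_lt_add_one (show 0 ≤ 40 * L by linarith)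
    rw [← hs1] at this
    linarith
  obtain ⟨κ, hκ⟩ : ∃ κ : ℝ, κ = 1 / (2 ^ (s1 + 1) * 25600) := ⟨_, rfl⟩
  have hp1 : (1 : ℝ) ≤ 2 ^ (s1 + 1) := one_le_pow₀ (by norm_num)
  have hκ0 : 0 < κ := by rw [hκ]; positivity
  have hκa : 2 * κ * 2 ^ (s1 + 1) = 1 / 12800 := by
    rw [hκ]; field_simp; norm_num
  have hκb : 2 * κ ≤ 1 / 12800 := by
    rw [← hκa]
    have : 0 ≤ 2 * κ := by linarith
    nlinarith
  obtain ⟨β, i1, u, P, hN, hPhi⟩ := exists_nearMin A hA K hK η κ hη0.le hκ0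
  have hDec := hN.1
  have hle1 := hh_one_le hDec hA
  have hle2 := hh_le_two hDec
  have hPhi' : (hh u P 2 - hh u P 1) + η * (Real.log (A.card : ℝ) - hh u P 1) ≤ Real.log K + κ := hPhi
  have hI0 : 0 ≤ Real.log (A.card : ℝ) - hh u P 1 := by linarith
  have hh21 : hh u P 2 - hh u P 1 ≤ k := by
    have := mul_nonneg hη0.le hI0
    rw [hk]; linarith
  have hI : Real.log (A.card : ℝ) - hh u P 1 ≤ 2 * L * k := by
    have h1 : η * (Real.log (A.card : ℝ) - hh u P 1) ≤ k := by rw [hk]; linarith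
    have h2 : (Real.log (A.card : ℝ) - hh u P 1) = (η * (Real.log (A.card : ℝ) - hh u P 1)) * (2 * L) := by
      calc (Real.log (A.card : ℝ) - hh u P 1) = (η * (2 * L)) * (Real.log (A.card : ℝ) - hh u P 1) := by
            rw [hηL, one_mul]
        _ = _ := by ring
    rw [h2]
    have h3 : (η * (Real.log (A.card : ℝ) - hh u P 1)) * (2 * L) ≤ k * (2 * L) :=
      mul_le_mul_of_nonneg_right h1 (by linarith)
    linarith
  obtain ⟨hgr1, hgr2⟩ := seq_growth (hh u P) k η κ hη0 hη2 hκ0.le (by linarith) (ccv hDec) (sdp hN) hh21 s1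
  -- first bound
  have hf1 : ((1 + η) / 2) ^ s1 * k ≤ 1 / 12800 := by
    have h1 : (1 + η) / 2 ≤ Real.exp (-(1 / 4)) := by
      have := Real.add_one_le_exp (-(1 / 4 : ℝ))
      linarith
    have h2 : ((1 + η) / 2) ^ s1 ≤ Real.exp (-(1 / 4)) ^ s1 := pow_le_pow_left₀ (by linarith) h1 s1
    rw [← Real.exp_nat_mul] at h2
    have h3 : k = Real.exp (L - 1) := by
      rw [hL, add_sub_cancel_left, Real.exp_log (by linarith)]
    have h4 : ((1 + η) / 2) ^ s1 * k ≤ Real.exp (s1 * -(1 / 4)) * Real.exp (L - 1) := by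
      rw [← h3]
      exact mul_le_mul_of_nonneg_right h2 (by linarith)
    refine h4.trans ?_
    rw [← Real.exp_add]
    have h5 : (s1 : ℝ) * -(1 / 4) + (L - 1) ≤ -10 := by linarith
    refine (Real.exp_le_exp.2 h5).trans ?_
    rw [Real.exp_neg, ← one_div]
    exact one_div_le_one_div_of_le (by norm_num) exp10
  have hpow : (1 + η) ^ s1 ≤ E := by
    have h1 : 1 + η ≤ Real.exp η := by linarith [Real.add_one_le_exp η]
    have h2 : (1 + η) ^ s1 ≤ Real.exp η ^ s1 := pow_le_pow_left₀ (by linarith) h1 s1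
    rw [← Real.exp_nat_mul] at h2
    refine h2.trans ?_
    rw [hE]
    apply Real.exp_le_exp.2
    have h3 : (s1 : ℝ) * η ≤ 41 * L * η := mul_le_mul_of_nonneg_right hs1b hη0.le
    have h4 : 41 * L * η = 41 / 2 := by
      calc 41 * L * η = 41 / 2 * (η * (2 * L)) := by ring
        _ = 41 / 2 := by rw [hηL, mul_one]
    linarith
  have hg0 : 2 * k * (1 + η) ^ s1 / η + 2 * κ * 2 ^ (s1 + 1) ≤ 5 * E * (k * L) := by
    rw [hκa]
    have h1 : 2 * k * (1 + η) ^ s1 / η = 4 * (k * L) * (1 + η) ^ s1 := by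
      rw [hη]; field_simp; ring
    rw [h1]
    have h2 : 4 * (k * L) * (1 + η) ^ s1 ≤ 4 * (k * L) * E := mul_le_mul_of_nonneg_left hpow (by linarith)
    have h3 : (1 : ℝ) ≤ E * (k * L) := one_le_mul_of_one_le_of_one_le hE1 hDD
    linarith
  have hM : 1 ≤ 2 ^ (s1 + 1) - 1 := by
    have : 2 ^ 1 ≤ 2 ^ (s1 + 1) := Nat.pow_le_pow_right (by norm_num) (by omega)
    omega
  have hM1 : 2 ^ (s1 + 1) - 1 + 1 = 2 ^ (s1 + 1) := by omega
  have hlr : 0 ≤ Real.log r := Real.log_natCast_nonneg r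
  have hs0 : (1 : ℝ) ≤ s := by
    have : (1 : ℝ) ≤ (10 * E + 64) * (k * L + Real.log r) := by
      have h1 : (1 : ℝ) ≤ 10 * E + 64 := by linarith
      have h2 : (1 : ℝ) ≤ k * L + Real.log r := by linarith
      exact one_le_mul_of_one_le_of_one_le h1 h2
    linarith
  have hfin := core hDec hA (2 ^ (s1 + 1) - 1) hM (20 * (2 * L * k + 1)) (by linarith)
    (by rw [hM1]; linarith) (5 * E * (k * L)) (by linarith) s r (by exact_mod_cast hs0)
    hr K hK1 hK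
    (by
      have h1 : 53 / 100 * ((10 * E + 64) * (k * L + Real.log r)) ≤ 53 / 100 * (s : ℝ) := by linarith
      have h2 : 5 * E * (k * L) + Real.log r < 53 / 100 * ((10 * E + 64) * (k * L + Real.log r)) := by
        have h3 : 0 < E * (k * L) := by positivity
        have h4 : 0 ≤ E * Real.log r := mul_nonneg (by linarith) hlr
        nlinarith
      linarith)
  refine hfin.trans ?_
  have hkD : k ≤ k * L := le_mul_of_one_le_right (by linarith) hL1
  have h1 : 20 * (2 * L * k + 1) + 1 + 3 * Real.log K ≤ (10 * E + 64) * (k * L) := by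
    have h2 : Real.log K ≤ k := by rw [hk]; linarith
    have h3 : 0 ≤ E * (k * L) := by positivity
    nlinarith
  calc (s : ℝ) * (20 * (2 * L * k + 1) + 1 + 3 * Real.log K) ≤ s * ((10 * E + 64) * (k * L)) :=
        mul_le_mul_of_nonneg_left h1 (by linarith)
    _ = (10 * E + 64) * s * (k * L) := by ring

end Pool.Agent.NCL
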