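import Pool.Agent.NPM.Bas
import Pool.Agent.NPM.Kvm
set_option autoImplicit false

/-!
# Shf.  Adding a uniform variable on a long progression of popular differences

`nu d` is the uniform law on `{0, d}`, `US v s` the law of `J v`, `J` uniform on `{0, ..., 2^s - 1}`.
`ent_nu`: `H(μ * nu d) - H(μ) ≤ (log 2 / 2) ‖μ - τ_d μ‖₁` (a Jensen-Shannon bound).
`chain`: `H(μ * US v s) - H(μ) ≤ Σ_{i < s} (log 2 / 2) ‖μ - τ_{2^i v} μ‖₁` (Kaimanovich-Vershik-Madiman).
-/
namespace Pool.Agent.NCL
open Finset Pool.Agent.Ldc Pool.Agent.NPM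

variable {G : Type} [AddCommGroup G] [Fintype G]

/-- uniform law on `{0, d}` -/
noncomputable def nu (d : G) : G → ℝ := fun g => (dl g + dl (g - d)) / 2

/-- law of `J v`, `J` uniform on `{0, ..., 2^s - 1}` -/
noncomputable def US (v : G) : ℕ → G → ℝ
  | 0 => dl
  | s + 1 => conv (nu ((2 ^ s) • v)) (US v s)

theorem conv_nu (d : G) (μ : G → ℝ) (g : G) : conv (nu d) μ g = (μ g + μ (g - d)) / 2 := by
  classical
  have h1 : conv dl μ g = μ g := congrFun (dl_conv μ) g
  have h2 : ∑ x, dl (x - d) * μ (g - x) = μ (g - d) := by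
    rw [Finset.sum_eq_single d]
    · simp [dl]
    · intro b _ hb
      have : b - d ≠ 0 := sub_ne_zero.mpr hb
      simp [dl, this]
    · intro h; exact absurd (Finset.mem_univ _) h
  unfold conv at h1 ⊢
  unfold nu
  have h3 : ∀ x, (dl x + dl (x - d)) / 2 * μ (g - x) = (dl x * μ (g - x) + dl (x - d) * μ (g - x)) / 2 := by
    intro x; ring
  rw [Finset.sum_congr rfl (fun x _ => h3 x), ← Finset.sum_div, Finset.sum_add_distrib, h1, h2]

theorem nu_isP (d : G) : IsP (nu d : G → ℝ) := by
  classical
  refine ⟨fun g => ?_, ?_⟩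
  · unfold nu dl
    split_ifs <;> norm_num
  · unfold nu
    rw [← Finset.sum_div, Finset.sum_add_distrib, (dl_isP (G := G)).2]
    have : ∑ g : G, dl (g - d) = 1 := by
      rw [← (dl_isP (G := G)).2]
      exact Equiv.sum_comp (Equiv.subRight d) dl
    rw [this]; norm_num

theorem US_isP (v : G) (s : ℕ) : IsP (US v s : G → ℝ) := by
  induction s with
  | zero => exact dl_isP
  | succ s ih => exact conv_isP (nu_isP _) ih

theorem pt (p q : ℝ) (hp : 0 ≤ p) (hq : 0 ≤ q) :
    Real.negMulLog ((p + q) / 2) - (Real.negMulLog p + Real.negMulLog q) / 2 ≤ Real.log 2 / 2 * |p - q| := by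
  -- reduce to q ≤ p
  have key : ∀ a b : ℝ, 0 ≤ b → b ≤ a →
      Real.negMulLog ((a + b) / 2) - (Real.negMulLog a + Real.negMulLog b) / 2 ≤ Real.log 2 / 2 * (a - b) := by
    intro a b hb hab
    rcases (le_trans hb hab).eq_or_lt with ha | ha
    · have hb0 : b = 0 := by linarith
      rw [← ha, hb0]; simp
    · -- w = (a+b)/2 > 0, t = (a-b)/(a+b)
      set w : ℝ := (a + b) / 2 with hw
      have hw0 : 0 < w := by rw [hw]; linarith
      set t : ℝ := (a - b) / (a + b) with ht
      have hab0 : 0 < a + b := by linarith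
      have ht0 : 0 ≤ t := div_nonneg (by linarith) hab0.le
      have ht1 : t ≤ 1 := by rw [ht, div_le_one hab0]; linarith
      have hwt : w * t = (a - b) / 2 := by rw [hw, ht]; field_simp
      have ha' : a = (1 - t) * w + t * (2 * w) := by
        have : (1 - t) * w + t * (2 * w) = w + w * t := by ring
        rw [this, hwt, hw]; ring
      have hb' : b = (1 - t) * w + t * 0 := by
        have : (1 - t) * w + t * 0 = w - w * t := by ring
        rw [this, hwt, hw]; ring
      have hconv := Real.convexOn_mul_log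
      have h1 : a * Real.log a ≤ (1 - t) * (w * Real.log w) + t * (2 * w * Real.log (2 * w)) := by
        have := hconv.2 (Set.mem_Ici.mpr hw0.le) (Set.mem_Ici.mpr (by linarith : (0:ℝ) ≤ 2 * w))
          (by linarith : (0:ℝ) ≤ 1 - t) ht0 (by ring)
        simp only [smul_eq_mul] at this
        rw [← ha'] at this
        exact this
      have h2 : b * Real.log b ≤ (1 - t) * (w * Real.log w) := by
        have := hconv.2 (Set.mem_Ici.mpr hw0.le) (Set.mem_Ici.mpr (le_rfl : (0:ℝ) ≤ 0))
          (by linarith : (0:ℝ) ≤ 1 - t) ht0 (by ring)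
        simp only [smul_eq_mul] at this
        rw [← hb'] at this
        simpa using this
      have h3 : Real.log (2 * w) = Real.log 2 + Real.log w := Real.log_mul (by norm_num) hw0.ne'
      rw [h3] at h1
      unfold Real.negMulLog
      have h4 : a - b = 2 * (w * t) := by rw [hwt]; ring
      rw [h4]
      nlinarith [h1, h2]
  rcases le_total q p with h | h
  · rw [abs_of_nonneg (by linarith)]
    exact key p q hq h
  · rw [abs_of_nonpos (by linarith)]
    have := key q p hp h
    rw [add_comm q p, add_comm (Real.negMulLog q)] at this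
    linarith

theorem ent_nu (μ : G → ℝ) (hμ : IsP μ) (d : G) :
    ent (conv (nu d) μ) - ent μ ≤ Real.log 2 / 2 * l1 0 d μ := by
  have h1 : ent μ = ∑ g, (Real.negMulLog (μ g) + Real.negMulLog (μ (g - d))) / 2 := by
    rw [← Finset.sum_div, Finset.sum_add_distrib]
    have : ∑ g, Real.negMulLog (μ (g - d)) = ∑ g, Real.negMulLog (μ g) :=
      Equiv.sum_comp (Equiv.subRight d) (fun g => Real.negMulLog (μ g))
    rw [this]; unfold ent; ring
  rw [h1]
  unfold ent l1
  rw [← Finset.sum_sub_distrib, Finset.mul_sum]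
  apply Finset.sum_le_sum
  intro g _
  rw [conv_nu, sub_zero]
  exact pt _ _ (hμ.1 _) (hμ.1 _)

theorem chain (v : G) (μ : G → ℝ) (hμ : IsP μ) (s : ℕ) :
    ent (conv (US v s) μ) - ent μ ≤ ∑ i ∈ range s, Real.log 2 / 2 * l1 0 ((2 ^ i) • v) μ := by
  induction s with
  | zero =>
    simp only [US, dl_conv, sub_self, Finset.range_zero, Finset.sum_empty, le_refl]
  | succ s ih =>
    rw [Finset.sum_range_succ]
    have h1 : conv (US v (s + 1)) μ = conv (nu ((2 ^ s) • v)) (conv (US v s) μ) := by
      rw [← conv_assoc]; rfl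
    rw [h1]
    have h2 := kvm (p := nu ((2 ^ s) • v)) (q := US v s) (r := μ) (nu_isP _) (US_isP v s) hμ
    have h3 := ent_nu μ hμ ((2 ^ s) • v)
    linarith

theorem l1_sub (a b : G) (μ : G → ℝ) : l1 0 (a - b) μ = l1 b a μ := by
  unfold l1
  rw [← Equiv.sum_comp (Equiv.subRight b) (fun g => |μ (g - 0) - μ (g - (a - b))|)]
  apply Finset.sum_congr rfl
  intro g _
  simp only [Equiv.subRight_apply, sub_zero]
  congr 3
  abel

theorem US_eq (v : G) (s : ℕ) (g : G) :
    US v s g = ∑ j ∈ range (2 ^ s), (1 / 2 ^ s : ℝ) * dl (g - j • v) := by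
  induction s generalizing g with
  | zero => simp [US]
  | succ s ih =>
    have h1 : US v (s + 1) g = (US v s g + US v s (g - (2 ^ s) • v)) / 2 := conv_nu _ _ _
    rw [h1, ih, ih, pow_succ, mul_two, Finset.sum_range_add, add_div]
    congr 1
    · rw [Finset.sum_div]
      apply Finset.sum_congr rfl
      intro j _
      rw [pow_succ]
      field_simp
    · rw [Finset.sum_div]
      apply Finset.sum_congr rfl
      intro j _
      have h2 : g - (2 ^ s) • v - j • v = g - (2 ^ s + j) • v := by
        rw [add_smul]; abel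
      rw [h2, pow_succ]
      field_simp

theorem conv_US (v : G) (s : ℕ) (p : G → ℝ) (z : G) :
    conv (US v s) p z = ∑ j ∈ range (2 ^ s), (1 / 2 ^ s : ℝ) * p (z - j • v) := by
  classical
  unfold conv
  have h1 : ∀ x, US v s x * p (z - x) = ∑ j ∈ range (2 ^ s), (1 / 2 ^ s : ℝ) * dl (x - j • v) * p (z - x) := by
    intro x; rw [US_eq, Finset.sum_mul]
  rw [Finset.sum_congr rfl (fun x _ => h1 x), Finset.sum_comm]
  apply Finset.sum_congr rfl
  intro j _
  rw [Finset.sum_eq_single (j • v)]
  · simp [dl]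
  · intro b _ hb
    have : b - j • v ≠ 0 := sub_ne_zero.mpr hb
    simp [dl, this]
  · intro h; exact absurd (Finset.mem_univ _) h

end Pool.Agent.NCL
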