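import Pool.Agent.NCL.Par
set_option autoImplicit false

/-!
# Tor.  Torsion-free groups
-/
namespace Pool.Agent.NCL
open Finset
open scoped Pointwise

private theorem red_core {T : Type} [AddCommGroup T] [Finite T] (n : ℕ)
    (B : Finset ((Fin n →₀ ℤ) × T)) :
    ∃ (G' : Type) (_ : AddCommGroup G') (_ : Fintype G') (g : ((Fin n →₀ ℤ) × T) →+ G'),
      ∀ x ∈ B, g x = 0 → x = 0 := by
  classical
  obtain ⟨M, hM⟩ : ∃ M : ℕ, ∀ x ∈ B, ∀ i, (x.1 i).natAbs ≤ M := by
    refine ⟨B.sup (fun x => Finset.univ.sup (fun i => (x.1 i).natAbs)), ?_⟩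
    intro x hx i
    have h1 : (x.1 i).natAbs ≤ Finset.univ.sup (fun i => (x.1 i).natAbs) :=
      Finset.le_sup (f := fun i => (x.1 i).natAbs) (Finset.mem_univ i)
    refine h1.trans ?_
    exact Finset.le_sup (f := fun x : (Fin n →₀ ℤ) × T => Finset.univ.sup (fun i => (x.1 i).natAbs)) hx
  obtain ⟨r, hr⟩ : ∃ r : ℕ, r = M + 1 := ⟨_, rfl⟩
  have : NeZero r := ⟨by omega⟩
  let g : ((Fin n →₀ ℤ) × T) →+ (Fin n → ZMod r) × T :=
    AddMonoidHom.mk' (fun x => ((fun i => ((x.1 i : ℤ) : ZMod r)), x.2)) (by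
      intro x y
      refine Prod.ext ?_ rfl
      funext i
      change (((x.1 + y.1) i : ℤ) : ZMod r) = ((x.1 i : ℤ) : ZMod r) + ((y.1 i : ℤ) : ZMod r)
      rw [Finsupp.add_apply]
      push_cast
      rfl)
  have : Finite ((Fin n → ZMod r) × T) := inferInstance
  refine ⟨(Fin n → ZMod r) × T, inferInstance, Fintype.ofFinite _, g, ?_⟩
  intro x hx h1
  refine Prod.ext ?_ (congrArg (fun v : (Fin n → ZMod r) × T => v.2) h1)
  ext i
  have h3 : ((x.1 i : ℤ) : ZMod r) = 0 := congrFun (congrArg Prod.fst h1) i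
  rw [ZMod.intCast_zmod_eq_zero_iff_dvd] at h3
  have e1 := hM x hx i
  change x.1 i = 0
  apply Int.eq_zero_of_abs_lt_dvd h3
  rw [Int.abs_eq_natAbs]
  omega

theorem red_fg (H : Type) [AddCommGroup H] [AddGroup.FG H] (B : Finset H) :
    ∃ (G' : Type) (_ : AddCommGroup G') (_ : Fintype G') (g : H →+ G'), ∀ x ∈ B, g x = 0 → x = 0 := by
  classical
  obtain ⟨n, κ, _, p, hp, e, ⟨ε₀⟩⟩ := AddCommGroup.equiv_free_prod_directSum_zmod H
  let ε : H ≃+ (Fin n →₀ ℤ) × ∀ i, ZMod (p i ^ e i) :=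
    ε₀.trans ((AddEquiv.refl _).prodCongr (DirectSum.addEquivProd fun i => ZMod (p i ^ e i)))
  have : Finite (∀ i, ZMod (p i ^ e i)) := by
    have : ∀ i, NeZero (p i ^ e i) := fun i => ⟨pow_ne_zero _ (hp i).ne_zero⟩
    exact Pi.finite
  obtain ⟨G', i1, i2, g, hg⟩ := red_core n (B.image ε)
  refine ⟨G', i1, i2, g.comp ε.toAddMonoidHom, ?_⟩
  intro x hx h
  have h1 := hg (ε x) (Finset.mem_image_of_mem _ hx) h
  exact (map_eq_zero_iff ε ε.injective).1 h1

theorem tor_fg : ∃ C : ℝ, 1 ≤ C ∧ ∀ (H : Type) [AddCommGroup H] [AddGroup.FG H] [DecidableEq H] (A : Finset H)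
    (r s : ℕ) (K : ℝ), (∀ (n : ℤ) (v : H), n • v = 0 → n = 0 ∨ v = 0) → A.Nonempty → 1 ≤ K →
    ((A + A).card : ℝ) ≤ K * (A.card : ℝ) →
    C * (DD K + Real.log r) ≤ s →
    (∀ z v : H, v ≠ 0 → ∀ T : Finset H, T ⊆ A → (∀ a ∈ T, ∃ j : ℕ, j < 2 ^ s ∧ a = z + j • v) → T.card ≤ r) →
    Real.log (A.card : ℝ) ≤ C * s * DD K := by
  obtain ⟨C, hC, hfin⟩ := fin_case
  refine ⟨C, hC, ?_⟩
  intro H _ _ _ A r s K htf hA hK1 hK hs hr
  classical
  set B : Finset H := ((A ×ˢ A) ×ˢ ((A ×ˢ A) ×ˢ (Finset.Icc (-(2 ^ s : ℤ)) (2 ^ s : ℤ)))).image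
    (fun x => x.1.1 - x.1.2 + x.2.2 • (x.2.1.1 - x.2.1.2)) with hB
  obtain ⟨G', i1, i2, f, hf⟩ := red_fg H B
  have hBm : ∀ c ∈ A, ∀ c' ∈ A, ∀ a ∈ A, ∀ b ∈ A, ∀ j : ℤ, -(2 ^ s : ℤ) ≤ j → j ≤ 2 ^ s →
      f (c - c' + j • (a - b)) = 0 → c - c' + j • (a - b) = 0 := by
    intro c hc c' hc' a ha b hb j hj1 hj2 h
    apply hf _ _ h
    rw [hB, Finset.mem_image]
    refine ⟨((c, c'), ((a, b), j)), ?_, rfl⟩
    simp only [Finset.mem_product, Finset.mem_Icc]
    exact ⟨⟨hc, hc'⟩, ⟨ha, hb⟩, hj1, hj2⟩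
  have hinj : Set.InjOn f (A : Set H) := by
    intro c hc c' hc' h
    have h1 := hBm c hc c' hc' c hc c hc 0 (by simp) (by positivity) (by
      rw [zero_smul, add_zero, map_sub, h, sub_self])
    rw [zero_smul, add_zero] at h1
    exact sub_eq_zero.mp h1
  have hcard : (A.image f).card = A.card := Finset.card_image_of_injOn hinj
  have hsum : (A.image f + A.image f).card ≤ (A + A).card := by
    have : A.image f + A.image f = (A + A).image f := (Finset.image_add f).symm
    rw [this]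
    exact Finset.card_image_le
  have hsum' : ((A.image f + A.image f).card : ℝ) ≤ K * ((A.image f).card : ℝ) := by
    rw [hcard]
    have : ((A.image f + A.image f).card : ℝ) ≤ ((A + A).card : ℝ) := by exact_mod_cast hsum
    exact this.trans hK
  have := hfin G' (A.image f) r s K (hA.image f) hK1 hsum' hs ?_
  · rwa [hcard] at this
  · intro v' hv' ⟨a', ha', b', hb', hab⟩ z' T hT hTA
    obtain ⟨a, ha, rfl⟩ := Finset.mem_image.1 ha'
    obtain ⟨b, hb, rfl⟩ := Finset.mem_image.1 hb'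
    set v : H := a - b with hv
    have hfv : f v = v' := by rw [hv, map_sub, hab]
    have hv0 : v ≠ 0 := by
      intro h; rw [h, map_zero] at hfv; exact hv' hfv.symm
    rcases T.eq_empty_or_nonempty with hTe | hTn
    · rw [hTe]; simp
    · -- choose the largest j
      set j0 := T.max' hTn with hj0
      have hj0T : j0 ∈ T := Finset.max'_mem _ _
      have hch : ∀ j ∈ T, ∃ c ∈ A, f c = z' - j • v' := fun j hj => Finset.mem_image.1 (hTA j hj)
      choose! c hcA hc using hch
      have hlt : ∀ j ∈ T, j < 2 ^ s := fun j hj => Finset.mem_range.1 (hT hj)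
      have hle : ∀ j ∈ T, j ≤ j0 := fun j hj => Finset.le_max' _ _ hj
      have hcj : ∀ j ∈ T, c j = c j0 + (j0 - j) • v := by
        intro j hj
        have h1 : (((j0 - j : ℕ)) : ℤ) = (j0 : ℤ) - j := by
          have := hle j hj; omega
        have h3 : (j0 : ℤ) - j ≤ 2 ^ s := by
          have := hlt j0 hj0T
          have h4 : ((j0 : ℤ)) < 2 ^ s := by exact_mod_cast this
          omega
        have h2 := hBm (c j) (hcA j hj) (c j0) (hcA j0 hj0T) a ha b hb (-((j0 : ℤ) - j)) (by omega)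
          (by have := hle j hj
              have h5 : (0 : ℤ) ≤ 2 ^ s := by positivity
              omega) (by
            rw [← hv, map_add, map_sub, map_zsmul, hfv, hc j hj, hc j0 hj0T, neg_smul, sub_smul,
              natCast_zsmul, natCast_zsmul]
            abel)
        rw [← hv] at h2
        have h3 : c j = c j0 + ((j0 : ℤ) - j) • v := by
          have h6 : c j - c j0 = ((j0 : ℤ) - j) • v := by
            rw [neg_smul] at h2
            exact add_neg_eq_zero.mp h2
          rw [← h6]; abel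
        rw [h3, ← h1, natCast_zsmul]
      have hcinj : Set.InjOn c (T : Set ℕ) := by
        intro i hi j hj hij
        rw [hcj i hi, hcj j hj] at hij
        have h1 : ((j0 - i : ℕ)) • v = ((j0 - j : ℕ)) • v := add_left_cancel hij
        have h2 : (((j0 - i : ℕ) : ℤ) - ((j0 - j : ℕ) : ℤ)) • v = 0 := by
          rw [sub_smul, natCast_zsmul, natCast_zsmul, h1, sub_self]
        rcases htf _ _ h2 with h3 | h3
        · have := hle i hi
          have := hle j hj
          omega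
        · exact absurd h3 hv0
      rw [← Finset.card_image_of_injOn hcinj]
      apply hr (c j0) v hv0
      · intro x hx
        obtain ⟨j, hj, rfl⟩ := Finset.mem_image.1 hx
        exact hcA j hj
      · intro x hx
        obtain ⟨j, hj, rfl⟩ := Finset.mem_image.1 hx
        refine ⟨j0 - j, ?_, hcj j hj⟩
        have := hlt j0 hj0T
        omega

theorem tor : ∃ C : ℝ, 1 ≤ C ∧ ∀ (V : Type) [AddCommGroup V] [DecidableEq V] (A : Finset V)
    (r s : ℕ) (K : ℝ), (∀ (n : ℤ) (v : V), n • v = 0 → n = 0 ∨ v = 0) → A.Nonempty → 1 ≤ K →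
    ((A + A).card : ℝ) ≤ K * (A.card : ℝ) →
    C * (DD K + Real.log r) ≤ s →
    (∀ z v : V, v ≠ 0 → ∀ T : Finset V, T ⊆ A → (∀ a ∈ T, ∃ j : ℕ, j < 2 ^ s ∧ a = z + j • v) → T.card ≤ r) →
    Real.log (A.card : ℝ) ≤ C * s * DD K := by
  obtain ⟨C, hC, hfg⟩ := tor_fg
  refine ⟨C, hC, ?_⟩
  intro V _ _ A r s K htf hA hK1 hK hs hr
  classical
  set G₀ := AddSubgroup.closure (A : Set V) with hG₀
  have hfg' : AddGroup.FG G₀ := by
    rw [AddGroup.fg_iff_addSubgroup_fg]
    exact ⟨A, hG₀.symm⟩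
  have hmem : ∀ x ∈ A, x ∈ G₀ := fun x hx => AddSubgroup.subset_closure hx
  set A' : Finset G₀ := A.attach.image (fun x => (⟨x.1, hmem x.1 x.2⟩ : G₀)) with hA'
  have him : A'.image (fun x : G₀ => (x : V)) = A := by
    ext x
    simp only [hA', Finset.mem_image, Finset.mem_attach, true_and, Subtype.exists]
    constructor
    · rintro ⟨y, hy, ⟨z, hz, hzy⟩, rfl⟩
      have : z = y := congrArg Subtype.val hzy
      rwa [← this]
    · intro hx
      exact ⟨x, hmem x hx, ⟨x, hx, rfl⟩, rfl⟩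
  have hcard : A'.card = A.card := by
    rw [← him]; exact (Finset.card_image_of_injective _ Subtype.val_injective).symm
  have hsum : (A' + A').card = (A + A).card := by
    have h1 : (A' + A').image (fun x : G₀ => (x : V)) = A + A := by
      rw [← him]
      exact Finset.image_add (G₀.subtype)
    rw [← h1]; exact (Finset.card_image_of_injective _ Subtype.val_injective).symm
  have := hfg G₀ A' r s K ?_ ?_ hK1 (by rw [hsum, hcard]; exact hK) hs ?_
  · rwa [hcard] at this
  · intro n v h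
    have h1 : n • (v : V) = 0 := by
      have := congrArg (fun x : G₀ => (x : V)) h
      simpa using this
    rcases htf n v h1 with h2 | h2
    · exact Or.inl h2
    · exact Or.inr (by ext; exact h2)
  · have : 0 < A'.card := by rw [hcard]; exact hA.card_pos
    exact Finset.card_pos.1 this
  · intro z v hv T hT hTz
    have h1 := hr (z : V) (v : V) (by intro h; apply hv; ext; exact h) (T.image (fun x : G₀ => (x : V))) ?_ ?_
    · rwa [Finset.card_image_of_injective _ Subtype.val_injective] at h1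
    · rw [← him]; exact Finset.image_subset_image hT
    · intro a ha
      obtain ⟨x, hx, rfl⟩ := Finset.mem_image.1 ha
      obtain ⟨j, hj, hxj⟩ := hTz x hx
      refine ⟨j, hj, ?_⟩
      rw [hxj]; simp

end Pool.Agent.NCL
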